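import Pool.Agent.H55.PUU.Kob

/-!
# Lifting modulo nil ideals and the splitting of the question

Lifting of periodicity of matrix rings modulo nil ideals from Koethe's conjecture, and the reduction
to finitely generated prime rings with zero Jacobson radical.
-/

set_option autoImplicit false

namespace Pool.PUU

open Polynomial

universe u

/-- The values of all monic integer polynomials at `A` have an entry outside `I`. -/
def Bad {R : Type u} [Ring R] {n : ℕ} (A : Matrix (Fin n) (Fin n) R) (I : Ideal R) : Prop :=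
  ∀ F : ℤ[X], F.Monic → ∃ i j, (aeval A F) i j ∉ I

section

variable {R : Type u} [Ring R] {n : ℕ}

theorem bad_iff (A : Matrix (Fin n) (Fin n) R) (I : Ideal R) [I.IsTwoSided] :
    Bad A I ↔ ¬ IsIntegral ℤ (rd (Fin n) I A) := by
  constructor
  · rintro h ⟨F, hF, h0⟩
    obtain ⟨i, j, hij⟩ := h F hF
    rw [← aeval_def, ← rd_aeval, rd_zero_iff] at h0
    exact hij (h0 i j)
  · intro h F hF
    by_contra hcon
    push Not at hcon
    refine h ⟨F, hF, ?_⟩
    rw [← aeval_def, ← rd_aeval, rd_zero_iff]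
    exact hcon

theorem bad_bot {A : Matrix (Fin n) (Fin n) R} (h : ¬ IsIntegral ℤ A) : Bad A ⊥ := by
  intro F hF
  by_contra hcon
  push Not at hcon
  refine h ⟨F, hF, ?_⟩
  rw [← aeval_def]
  ext i j
  exact (Submodule.mem_bot R).1 (hcon i j)

/-- **A maximal two-sided ideal modulo which a matrix is not integral.** -/
theorem exists_max {A : Matrix (Fin n) (Fin n) R} (h : ¬ IsIntegral ℤ A) :
    ∃ I : Ideal R, I.IsTwoSided ∧ Bad A I ∧ ∀ J : Ideal R, J.IsTwoSided → I ≤ J → Bad A J → J = I := by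
  obtain ⟨I, -, hI⟩ := zorn_le_nonempty₀ {I : Ideal R | I.IsTwoSided ∧ Bad A I} (by
    intro c hc hch y hy
    have hdir : DirectedOn (· ≤ ·) c := hch.directedOn
    refine ⟨sSup c, ⟨⟨fun b ha => ?_⟩, fun F hF => ?_⟩, fun z hz => le_sSup hz⟩
    · rw [Submodule.mem_sSup_of_directed ⟨y, hy⟩ hdir] at ha ⊢
      obtain ⟨z, hz, haz⟩ := ha
      exact ⟨z, hz, (hc hz).1.mul_mem_of_left b haz⟩
    · by_contra hcon
      push Not at hcon
      have h1 : ∀ i j, ∃ z ∈ c, (aeval A F) i j ∈ z := fun i j =>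
        (Submodule.mem_sSup_of_directed ⟨y, hy⟩ hdir).1 (hcon i j)
      choose z hz hm using h1
      have h2 : ∀ s : Finset (Fin n × Fin n), ∃ w ∈ c, ∀ ij ∈ s, z ij.1 ij.2 ≤ w := by
        intro s
        induction s using Finset.induction_on with
        | empty => exact ⟨y, hy, fun ij hij => absurd hij (Finset.notMem_empty ij)⟩
        | insert a s _ ih =>
          obtain ⟨w, hw, hws⟩ := ih
          obtain ⟨w', hw', h3, h4⟩ := hdir w hw (z a.1 a.2) (hz a.1 a.2)
          refine ⟨w', hw', fun ij hij => ?_⟩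
          rcases Finset.mem_insert.1 hij with rfl | h5
          · exact h4
          · exact (hws ij h5).trans h3
      obtain ⟨w, hw, hwa⟩ := h2 Finset.univ
      obtain ⟨i, j, hij⟩ := (hc hw).2 F hF
      exact hij (hwa (i, j) (Finset.mem_univ _) (hm i j))) ⊥ ⟨inferInstance, bad_bot h⟩
  exact ⟨I, hI.1.1, hI.1.2, fun J hJ hIJ hb => le_antisymm (hI.2 ⟨hJ, hb⟩ hIJ) hIJ⟩

/-- The quotient by a maximal such ideal is prime. -/
theorem prime_of_max {A : Matrix (Fin n) (Fin n) R} {I : Ideal R} [hI2 : I.IsTwoSided] (hI : Bad A I)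
    (hmax : ∀ J : Ideal R, J.IsTwoSided → I ≤ J → Bad A J → J = I) : PrimeR (R ⧸ I) := by
  constructor
  · intro h1
    have h2 : (1 : R) ∈ I := by
      rw [← Ideal.Quotient.eq_zero_iff_mem, map_one, h1]
    obtain ⟨i, j, hij⟩ := hI 1 monic_one
    refine hij ?_
    have h3 := I.mul_mem_left ((aeval A (1 : ℤ[X])) i j) h2
    rw [mul_one] at h3
    exact h3
  · intro a b hab
    obtain ⟨a, rfl⟩ := Ideal.Quotient.mk_surjective a
    obtain ⟨b, rfl⟩ := Ideal.Quotient.mk_surjective b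
    rw [Ideal.Quotient.eq_zero_iff_mem, Ideal.Quotient.eq_zero_iff_mem]
    have hab' : ∀ r, a * r * b ∈ I := fun r => by
      rw [← Ideal.Quotient.eq_zero_iff_mem, map_mul, map_mul]
      exact hab _
    by_contra hcon
    rw [not_or] at hcon
    let B : Ideal R :=
      { carrier := {y | ∀ r, a * r * y ∈ I}
        add_mem' := fun {x y} hx hy r => by rw [mul_add]; exact I.add_mem (hx r) (hy r)
        zero_mem' := fun r => by rw [mul_zero]; exact I.zero_mem
        smul_mem' := fun t y hy r => by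
          rw [smul_eq_mul, ← mul_assoc, mul_assoc a r t]
          exact hy (r * t) }
    have hB2 : B.IsTwoSided := ⟨fun {y} t hy r => by
      rw [← mul_assoc]
      exact hI2.mul_mem_of_left t (hy r)⟩
    let C : Ideal R :=
      { carrier := {x | ∀ r, ∀ y ∈ B, x * r * y ∈ I}
        add_mem' := fun {x y} hx hy r z hz => by
          rw [add_mul, add_mul]; exact I.add_mem (hx r z hz) (hy r z hz)
        zero_mem' := fun r y _ => by rw [zero_mul, zero_mul]; exact I.zero_mem
        smul_mem' := fun t x hx r y hy => by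
          rw [smul_eq_mul, mul_assoc t x r, mul_assoc t (x * r) y]
          exact I.mul_mem_left t (hx r y hy) }
    have hC2 : C.IsTwoSided := ⟨fun {x} t hx r y hy => by
      rw [mul_assoc x t r]
      exact hx (t * r) y hy⟩
    have hIB : I ≤ B := fun y hy r => I.mul_mem_left _ hy
    have hIC : I ≤ C := fun x hx r y _ => by
      rw [mul_assoc]
      exact hI2.mul_mem_of_left _ hx
    have hbB : b ∈ B := hab'
    have haC : a ∈ C := fun r y hy => hy r
    have h1 : ¬ Bad A B := fun h => hcon.2 (by rw [← hmax B hB2 hIB h]; exact hbB)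
    have h2 : ¬ Bad A C := fun h => hcon.1 (by rw [← hmax C hC2 hIC h]; exact haC)
    unfold Bad at h1 h2
    push Not at h1 h2
    obtain ⟨F, hF, hF'⟩ := h1
    obtain ⟨G, hG, hG'⟩ := h2
    obtain ⟨i, j, hij⟩ := hI (G * F) (hG.mul hF)
    refine hij ?_
    rw [map_mul, Matrix.mul_apply]
    refine I.sum_mem fun m _ => ?_
    have h3 := hG' i m 1 _ (hF' m j)
    rw [mul_one] at h3
    exact h3

end

/-- The Jacobson radical of a periodic ring is nil. -/
theorem jac_nil {R : Type u} [Ring R] (hR : Per R) : ∀ x ∈ Ring.jacobson R, IsNilpotent x := by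
  intro x hx
  obtain ⟨m, k, h1, h2, h3⟩ := hR x
  rw [← Ideal.jacobson_bot, Ideal.mem_jacobson_iff] at hx
  obtain ⟨z, hz⟩ := hx (-(x ^ (m - k - 1)))
  have h4 : z * (1 - x ^ (m - k)) = 1 := by
    have h5 := (Submodule.mem_bot R).1 hz
    have h6 : z * -(x ^ (m - k - 1)) * x = -(z * x ^ (m - k)) := by
      rw [mul_neg, neg_mul, mul_assoc, ← pow_succ, show m - k - 1 + 1 = m - k by omega]
    rw [h6] at h5
    rw [mul_sub, mul_one, ← sub_eq_zero, ← h5]
    abel
  have h5 : (1 - x ^ (m - k)) * x ^ k = 0 := by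
    rw [sub_mul, one_mul, ← pow_add, Nat.sub_add_cancel h2.le, h3, sub_self]
  refine ⟨k, ?_⟩
  calc x ^ k = z * (1 - x ^ (m - k)) * x ^ k := by rw [h4, one_mul]
    _ = 0 := by rw [mul_assoc, h5, mul_zero]

/-- A prime ring of positive characteristic has prime characteristic. -/
theorem PrimeR.char {R : Type u} [Ring R] (h : PrimeR R) {c : ℕ} (hc : c ≠ 0) (hcR : (c : R) = 0) :
    ∃ p : ℕ, p.Prime ∧ (p : R) = 0 := by
  induction c using Nat.recOnMul with
  | zero => exact absurd rfl hc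
  | one => exact absurd (by simpa using hcR) h.1
  | prime p hp => exact ⟨p, hp, hcR⟩
  | mul a b ha hb =>
    rcases h.2 (a : R) (b : R) (fun r => by
      rw [mul_assoc, ← (Nat.cast_commute b r).eq, ← mul_assoc, ← Nat.cast_mul, hcR, zero_mul]) with h1 | h1
    · exact ha (left_ne_zero_of_mul hc) h1
    · exact hb (right_ne_zero_of_mul hc) h1

theorem FinGen.of_surj {R S : Type u} [Ring R] [Ring S] (f : R →+* S) (hf : Function.Surjective f)
    (h : FinGen R) : FinGen S := by
  classical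
  obtain ⟨s, hs⟩ := h
  refine ⟨s.image f, ?_⟩
  rw [Finset.coe_image, ← RingHom.map_closure, hs, ← RingHom.range_eq_map]
  exact RingHom.range_eq_top.2 hf

/-- **Lifting modulo nil ideals** from Koethe's conjecture. -/
theorem lift_of_koethe (hK : ∀ p : ℕ, p.Prime → Koethe.{u} p) {R : Type u} [Ring R] {I : Ideal R}
    [I.IsTwoSided] (hIn : ∀ x ∈ I, IsNilpotent x) {n : ℕ} (hn : 0 < n)
    (h1 : Per (Matrix (Fin n) (Fin n) (R ⧸ I))) : Per (Matrix (Fin n) (Fin n) R) := by
  obtain ⟨c₀, hc₀, hc₀R⟩ := h1.char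
  obtain ⟨c, hc, hcR⟩ : ∃ c : ℕ, 0 < c ∧ (c : R) = 0 := by
    have h2 : ((c₀ : ℕ) : R) ∈ I := by
      rw [← Ideal.Quotient.eq_zero_iff_mem, map_natCast]
      have h3 := congrFun (congrFun hc₀R ⟨0, hn⟩) ⟨0, hn⟩
      rw [← map_natCast (Matrix.scalar (Fin n)), Matrix.scalar_apply, Matrix.diagonal_apply_eq] at h3
      exact h3
    obtain ⟨N, hN⟩ := hIn _ h2
    exact ⟨c₀ ^ N, pow_pos hc₀ N, by rw [Nat.cast_pow, hN]⟩
  intro A
  obtain ⟨m, k, a1, a2, a3⟩ := h1 (rd (Fin n) I A)
  have h2 : ∀ i j, (A ^ m - A ^ k) i j ∈ I := by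
    rw [← rd_zero_iff, map_sub, map_pow, map_pow, a3, sub_self]
  have h3 : IsNilpotent (A ^ m - A ^ k) := by
    refine nil_of_mod hc hcR fun p hp => ?_
    refine nilmat_of_koethe (hK p hp) (pI_zero p) (L := I.map (Ideal.Quotient.mk (pI R p)))
      (fun x hx => ?_) fun i j => ?_
    · obtain ⟨y, hy, rfl⟩ := (Ideal.mem_map_iff_of_surjective (Ideal.Quotient.mk (pI R p))
        Ideal.Quotient.mk_surjective).1 hx
      exact (hIn y hy).map _
    · rw [rd_apply]
      exact Ideal.mem_map_of_mem _ (h2 i j)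
  refine rep_of_int hc (castM c hcR) (int_of_nil (f := X ^ m - X ^ k) ?_ ?_)
  · refine monic_X_pow_sub ?_
    rw [degree_X_pow]
    exact_mod_cast a2
  · rw [map_sub, map_pow, map_pow, aeval_X]
    exact h3

/-- **The splitting**: periodicity of matrix rings from Koethe's conjecture and the case of finitely
generated prime rings with zero Jacobson radical. -/
theorem per_of_split (hK : ∀ p : ℕ, p.Prime → Koethe.{u} p)
    (hS : ∀ (p : ℕ) (R : Type u) [Ring R], p.Prime → (p : R) = 0 → FinGen R → PrimeR R →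
      Ring.jacobson R = ⊥ → Per R → ∀ n : ℕ, Per (Matrix (Fin n) (Fin n) R))
    {R : Type u} [Ring R] (hR : Per R) (n : ℕ) : Per (Matrix (Fin n) (Fin n) R) := by
  classical
  obtain ⟨c, hc, hcR⟩ := hR.char
  intro A
  suffices h : IsIntegral ℤ A from rep_of_int hc (castM c hcR) h
  by_contra hA
  let s : Set R := Set.range fun ij : Fin n × Fin n => A ij.1 ij.2
  let R₀ : Subring R := Subring.closure s
  let A₀ : Matrix (Fin n) (Fin n) R₀ := Matrix.of fun i j =>
    ⟨A i j, Subring.subset_closure ⟨(i, j), rfl⟩⟩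
  have hA₀ : ¬ IsIntegral ℤ A₀ := by
    intro h
    apply hA
    exact h.map (R₀.subtype.mapMatrix (m := Fin n)).toIntAlgHom
  have hR₀ : Per R₀ := hR.of_inj (fun x : R₀ => (x : R)) Subtype.val_injective (fun x k _ => rfl)
  have hfg₀ : FinGen R₀ := by
    have h1 : (((↑) : R₀ → R) ⁻¹' s).Finite :=
      (Set.finite_range _).preimage Subtype.val_injective.injOn
    refine ⟨h1.toFinset, ?_⟩
    rw [Set.Finite.coe_toFinset]
    have h2 : (Subring.closure (((↑) : R₀ → R) ⁻¹' s)).map R₀.subtype = (⊤ : Subring R₀).map R₀.subtype := by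
      rw [RingHom.map_closure, ← RingHom.range_eq_map, Subring.range_subtype]
      congr 1
      rw [Subring.coe_subtype, Set.image_preimage_eq_inter_range]
      refine Set.inter_eq_left.2 fun x hx => ⟨⟨x, Subring.subset_closure hx⟩, rfl⟩
    rw [eq_top_iff]
    intro x _
    have h3 : R₀.subtype x ∈ (⊤ : Subring R₀).map R₀.subtype := ⟨x, trivial, rfl⟩
    rw [← h2] at h3
    obtain ⟨y, hy, hyx⟩ := h3
    rw [← Subtype.val_injective hyx]
    exact hy
  obtain ⟨I, hI2, hI, hmax⟩ := exists_max hA₀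
  have hR₁ : Per (R₀ ⧸ I) := hR₀.of_surj (Ideal.Quotient.mk I) Ideal.Quotient.mk_surjective
  have hfg : FinGen (R₀ ⧸ I) := hfg₀.of_surj (Ideal.Quotient.mk I) Ideal.Quotient.mk_surjective
  have hpr : PrimeR (R₀ ⧸ I) := prime_of_max hI hmax
  obtain ⟨c₁, hc₁, hc₁R⟩ := hR₁.char
  obtain ⟨p, hp, hpR⟩ := hpr.char hc₁.ne' hc₁R
  have hni := (bad_iff A₀ I).1 hI
  by_cases hJ : Ring.jacobson (R₀ ⧸ I) = ⊥
  · obtain ⟨m, k, -, a2, a3⟩ := hS p (R₀ ⧸ I) hp hpR hfg hpr hJ hR₁ n (rd (Fin n) I A₀)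
    exact hni (int_of_rep a2 a3)
  · obtain ⟨J, hJd⟩ : ∃ J : Ideal R₀, J = (Ring.jacobson (R₀ ⧸ I)).comap (Ideal.Quotient.mk I) :=
      ⟨_, rfl⟩
    have hJ2 : J.IsTwoSided := by rw [hJd]; infer_instance
    have hIJ : I ≤ J := by
      intro x hx
      rw [hJd, Ideal.mem_comap, Ideal.Quotient.eq_zero_iff_mem.2 hx]
      exact Ideal.zero_mem _
    have hne : ¬ Bad A₀ J := by
      intro h
      have h1 := hmax J hJ2 hIJ h
      apply hJ
      rw [eq_bot_iff]
      intro y hy
      obtain ⟨x, rfl⟩ := Ideal.Quotient.mk_surjective y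
      have hx : x ∈ J := by rw [hJd]; exact hy
      rw [h1] at hx
      exact (Submodule.mem_bot _).2 (Ideal.Quotient.eq_zero_iff_mem.2 hx)
    unfold Bad at hne
    push Not at hne
    obtain ⟨F, hF, hF'⟩ := hne
    obtain ⟨N, hN⟩ : IsNilpotent (rd (Fin n) I (aeval A₀ F)) := by
      refine nilmat_of_koethe (hK p hp) hpR (L := Ring.jacobson (R₀ ⧸ I)) (jac_nil hR₁) fun i j => ?_
      have h1 := hF' i j
      rw [hJd] at h1
      exact h1
    exact hni ⟨F ^ N, hF.pow N, by rw [← aeval_def, map_pow, ← rd_aeval, hN]⟩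

end Pool.PUU
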