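import Pool.Agent.H55.PUU.Defs

/-!
# Periodic rings and the pi-UU property of matrix rings: the companion matrix
-/

set_option autoImplicit false

namespace Pool.PUU

open Polynomial

universe u

theorem Per.char {R : Type u} [Ring R] (h : Per R) : ∃ c : ℕ, 0 < c ∧ (c : R) = 0 := by
  obtain ⟨m, k, -, hkm, he⟩ := h 2
  refine ⟨2 ^ m - 2 ^ k, Nat.sub_pos_of_lt (Nat.pow_lt_pow_right (by norm_num) hkm), ?_⟩
  rw [Nat.cast_sub (Nat.pow_le_pow_right (by norm_num) hkm.le)]
  push_cast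
  rw [he, sub_self]

theorem Per.of_inj {R S : Type*} [Ring R] [Ring S] (f : R → S) (hf : Function.Injective f)
    (hp : ∀ x k, 1 ≤ k → f (x ^ k) = f x ^ k) (h : Per S) : Per R := by
  intro x
  obtain ⟨m, k, h1, h2, h3⟩ := h (f x)
  refine ⟨m, k, h1, h2, hf ?_⟩
  rw [hp x m (by omega), hp x k h1, h3]

theorem Per.of_surj {R S : Type*} [Ring R] [Ring S] (f : R →+* S)
    (hf : Function.Surjective f) (h : Per R) : Per S := by
  intro y
  obtain ⟨x, rfl⟩ := hf y
  obtain ⟨m, k, h1, h2, h3⟩ := h x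
  exact ⟨m, k, h1, h2, by rw [← map_pow, h3, map_pow]⟩

theorem Per.equiv {R S : Type*} [Ring R] [Ring S] (e : R ≃+* S) (h : Per R) : Per S :=
  Per.of_surj e.toRingHom e.surjective h

theorem PiUU.equiv {R S : Type*} [Ring R] [Ring S] (e : R ≃+* S) (h : PiUU R) : PiUU S := by
  intro v
  obtain ⟨i, hi, hn⟩ := h (Units.map e.symm.toRingHom.toMonoidHom v)
  refine ⟨i, hi, ?_⟩
  have h1 := hn.map e
  rw [map_sub, map_pow, map_one] at h1
  have h2 : e ((Units.map e.symm.toRingHom.toMonoidHom v : Rˣ) : R) = (v : S) := by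
    rw [Units.coe_map]
    exact e.apply_symm_apply _
  rw [h2] at h1
  exact h1

theorem Per.piUU {R : Type u} [Ring R] (h : Per R) : PiUU R := by
  intro v
  obtain ⟨m, k, h1, h2, h3⟩ := h (v : R)
  refine ⟨m - k, by omega, ?_⟩
  have h4 : v ^ m = v ^ k := Units.ext (by rw [Units.val_pow_eq_pow_val, Units.val_pow_eq_pow_val, h3])
  have h5 : v ^ (m - k) = 1 := by
    have h6 : v ^ (m - k) * v ^ k = 1 * v ^ k := by
      rw [← pow_add, Nat.sub_add_cancel h2.le, h4, one_mul]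
    exact mul_right_cancel h6
  rw [← Units.val_pow_eq_pow_val, h5, Units.val_one, sub_self]
  exact IsNilpotent.zero

/-- In a finite set closed under powers some power repeats. -/
theorem rep_of_finite {R : Type u} [Ring R] {s : Set R} (hs : s.Finite) {x : R}
    (hx : ∀ n : ℕ, x ^ n ∈ s) : ∃ m k : ℕ, 1 ≤ k ∧ k < m ∧ x ^ m = x ^ k := by
  haveI := hs.to_subtype
  obtain ⟨a, b, hab, he⟩ := Finite.exists_ne_map_eq_of_infinite
    (fun n : ℕ => (⟨x ^ (n + 1), hx (n + 1)⟩ : s))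
  have he' : x ^ (a + 1) = x ^ (b + 1) := congrArg Subtype.val he
  rcases Nat.lt_or_gt_of_ne hab with h | h
  · exact ⟨b + 1, a + 1, by omega, by omega, he'.symm⟩
  · exact ⟨a + 1, b + 1, by omega, by omega, he'⟩

/-- A finitely generated additive subgroup of a ring of positive characteristic is finite. -/
theorem fin_of_fg {R : Type u} [Ring R] {c : ℕ} (hc : 0 < c) (hcR : (c : R) = 0)
    {N : Submodule ℤ R} (hN : N.FG) : (N : Set R).Finite := by
  haveI : Module.Finite ℤ N := Module.Finite.iff_fg.2 hN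
  have h1 : Module.IsTorsion ℤ N := by
    intro x
    refine ⟨⟨(c : ℤ), mem_nonZeroDivisors_of_ne_zero (by exact_mod_cast hc.ne')⟩, ?_⟩
    apply Subtype.ext
    change (((c : ℤ) • x : N) : R) = 0
    rw [Submodule.coe_smul, zsmul_eq_mul, Int.cast_natCast, hcR, zero_mul]
  haveI := Module.finite_of_fg_torsion N h1
  exact Set.toFinite _

/-- Powers of an element of `ℤ[x]`, `x` integral, repeat in positive characteristic. -/
theorem rep_adjoin {R : Type u} [Ring R] {c : ℕ} (hc : 0 < c) (hcR : (c : R) = 0) {x : R}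
    (hx : IsIntegral ℤ x) {y : R} (hy : y ∈ Algebra.adjoin ℤ {x}) :
    ∃ m k : ℕ, 1 ≤ k ∧ k < m ∧ y ^ m = y ^ k :=
  rep_of_finite (fin_of_fg hc hcR hx.fg_adjoin_singleton) fun n =>
    (Algebra.adjoin ℤ {x}).pow_mem hy n

theorem rep_of_int {R : Type u} [Ring R] {c : ℕ} (hc : 0 < c) (hcR : (c : R) = 0) {x : R}
    (hx : IsIntegral ℤ x) : ∃ m k : ℕ, 1 ≤ k ∧ k < m ∧ x ^ m = x ^ k :=
  rep_adjoin hc hcR hx (Algebra.subset_adjoin rfl)

/-- An element is integral as soon as a monic polynomial takes a nilpotent value at it. -/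
theorem int_of_nil {R : Type u} [Ring R] {x : R} {f : ℤ[X]} (hf : f.Monic)
    (h : IsNilpotent (aeval x f)) : IsIntegral ℤ x := by
  obtain ⟨N, hN⟩ := h
  exact ⟨f ^ N, hf.pow N, by rw [← aeval_def, map_pow, hN]⟩

theorem int_of_rep {R : Type u} [Ring R] {x : R} {m k : ℕ} (hkm : k < m)
    (h : x ^ m = x ^ k) : IsIntegral ℤ x := by
  refine int_of_nil (f := X ^ m - X ^ k) ?_ ?_
  · refine monic_X_pow_sub ?_
    rw [degree_X_pow]
    exact_mod_cast hkm
  · rw [map_sub, map_pow, map_pow, aeval_X, h, sub_self]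
    exact IsNilpotent.zero

/-- Units with `v ^ i - 1` nilpotent have finite order in positive characteristic. -/
theorem unit_ord {R : Type u} [Ring R] {c : ℕ} (hc : 0 < c) (hcR : (c : R) = 0) {v : Rˣ} {i : ℕ}
    (hi : 1 ≤ i) (h : IsNilpotent ((v : R) ^ i - 1)) :
    IsIntegral ℤ (v : R) ∧ ∃ j : ℕ, 1 ≤ j ∧ v ^ j = 1 := by
  have h0 : IsIntegral ℤ (v : R) := by
    refine int_of_nil (f := X ^ i - 1) ?_ ?_
    · have := monic_X_pow_sub_C (1 : ℤ) (n := i) (by omega)
      simpa using this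
    · rw [map_sub, map_pow, aeval_X, map_one]
      exact h
  refine ⟨h0, ?_⟩
  obtain ⟨m, k, h1, h2, h3⟩ := rep_of_int hc hcR h0
  refine ⟨m - k, by omega, ?_⟩
  have h4 : v ^ m = v ^ k := Units.ext (by rw [Units.val_pow_eq_pow_val, Units.val_pow_eq_pow_val, h3])
  have h6 : v ^ (m - k) * v ^ k = 1 * v ^ k := by
    rw [← pow_add, Nat.sub_add_cancel h2.le, h4, one_mul]
  exact mul_right_cancel h6

open Matrix in
/-- **The companion matrix.** If the `2n × 2n` matrix ring is pi-UU then the `n × n` one is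
periodic. -/
theorem per_of_piUU {R : Type u} [Ring R] {c : ℕ} (hc : 0 < c) (hcR : (c : R) = 0)
    {ι : Type*} [Fintype ι] [DecidableEq ι] (h : PiUU (Matrix (ι ⊕ ι) (ι ⊕ ι) R)) :
    Per (Matrix ι ι R) := by
  intro A
  let v : (Matrix (ι ⊕ ι) (ι ⊕ ι) R)ˣ :=
    { val := fromBlocks A (-1) 1 0
      inv := fromBlocks 0 1 (-1) A
      val_inv := by rw [fromBlocks_multiply, ← fromBlocks_one]; congr 1 <;> simp
      inv_val := by rw [fromBlocks_multiply, ← fromBlocks_one]; congr 1 <;> simp }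
  have hcM : ((c : ℕ) : Matrix (ι ⊕ ι) (ι ⊕ ι) R) = 0 := by
    rw [← map_natCast (Matrix.scalar (ι ⊕ ι)), hcR, map_zero]
  obtain ⟨i, hi, hn⟩ := h v
  obtain ⟨h0, j, hj, hv⟩ := unit_ord hc hcM hi hn
  have h1 : ((v⁻¹ : (Matrix (ι ⊕ ι) (ι ⊕ ι) R)ˣ) : Matrix (ι ⊕ ι) (ι ⊕ ι) R) = (v : Matrix _ _ R) ^ (j - 1) := by
    rw [← Units.val_pow_eq_pow_val]
    congr 1
    rw [inv_eq_iff_mul_eq_one, ← pow_succ', Nat.sub_add_cancel hj, hv]
  have h2 : fromBlocks A 0 0 A = (v : Matrix _ _ R) + (v : Matrix _ _ R) ^ (j - 1) := by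
    rw [← h1]
    change _ = fromBlocks A (-1) 1 0 + fromBlocks 0 1 (-1) A
    rw [fromBlocks_add]
    congr 1 <;> simp
  have h3 : fromBlocks A 0 0 A ∈ Algebra.adjoin ℤ {(v : Matrix (ι ⊕ ι) (ι ⊕ ι) R)} := by
    rw [h2]
    exact add_mem (Algebra.subset_adjoin rfl)
      ((Algebra.adjoin ℤ {(v : Matrix (ι ⊕ ι) (ι ⊕ ι) R)}).pow_mem (Algebra.subset_adjoin rfl) _)
  obtain ⟨m, k, a1, a2, a3⟩ := rep_adjoin hc hcM h0 h3
  refine ⟨m, k, a1, a2, ?_⟩
  rw [fromBlocks_diagonal_pow, fromBlocks_diagonal_pow, fromBlocks_inj] at a3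
  exact a3.1

open Matrix in
/-- Corners of periodic matrix rings are periodic. -/
theorem per_corner {R : Type u} [Ring R] {ι κ : Type*} [Fintype ι] [DecidableEq ι] [Fintype κ]
    [DecidableEq κ] (h : Per (Matrix (ι ⊕ κ) (ι ⊕ κ) R)) : Per (Matrix ι ι R) := by
  refine Per.of_inj (fun A => fromBlocks A 0 0 0) (fun A B hAB => (fromBlocks_inj.1 hAB).1) ?_ h
  intro A k hk
  rw [fromBlocks_diagonal_pow, zero_pow (by omega)]

/-- Induction over the size of matrices. -/
theorem ind2 {P : ℕ → Prop} (h2 : P 2) (hm : ∀ n, P n → P (2 * n)) (hc : ∀ a b, P (a + b) → P a) :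
    ∀ n, P n := by
  have h1 : ∀ k, P (2 ^ (k + 1)) := by
    intro k
    induction k with
    | zero => simpa using h2
    | succ k ih => rw [pow_succ' 2 (k + 1)]; exact hm _ ih
  intro n
  have h3 : n < 2 ^ (n + 1) := Nat.lt_two_pow_self.trans_le (Nat.pow_le_pow_right (by norm_num) (by omega))
  have h4 := h1 n
  rw [← Nat.add_sub_cancel' h3.le] at h4
  exact hc _ _ h4

/-- If `2 × 2` matrices over periodic rings are periodic, so are all matrices. -/
theorem per_all (h : ∀ (R : Type u) [Ring R], Per R → Per (Matrix (Fin 2) (Fin 2) R)) :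
    ∀ n, ∀ (R : Type u) [Ring R], Per R → Per (Matrix (Fin n) (Fin n) R) := by
  refine ind2 h ?_ ?_
  · intro n hn R _ hR
    have h1 := h _ (hn R hR)
    have h2 := h1.equiv (Matrix.compRingEquiv (Fin 2) (Fin n) R)
    exact h2.equiv (Matrix.reindexRingEquiv R (finProdFinEquiv (m := 2) (n := n)))
  · intro a b hab R _ hR
    exact per_corner ((hab R hR).equiv (Matrix.reindexRingEquiv R (finSumFinEquiv (m := a) (n := b)).symm))

end Pool.PUU
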