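import Pool.Agent.H55.PUU.Base

/-!
# Reduction modulo primes, algebraic algebras, commutative periodic rings
-/

set_option autoImplicit false

namespace Pool.PUU

open Polynomial

universe u

section

variable {R : Type u} [Ring R]

/-- The ideal generated by a natural number. -/
def pI (R : Type u) [Ring R] (p : ℕ) : Ideal R := Ideal.span {(p : R)}

theorem mem_pI {p : ℕ} {x : R} : x ∈ pI R p ↔ ∃ z, z * (p : R) = x := Ideal.mem_span_singleton'

instance (p : ℕ) : (pI R p).IsTwoSided := ⟨fun b ha => by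
  obtain ⟨z, rfl⟩ := mem_pI.1 ha
  exact mem_pI.2 ⟨z * b, by rw [mul_assoc, mul_assoc, (Nat.cast_commute p b).eq]⟩⟩

theorem pI_zero (p : ℕ) : ((p : ℕ) : R ⧸ pI R p) = 0 := by
  rw [← map_natCast (Ideal.Quotient.mk (pI R p)), Ideal.Quotient.eq_zero_iff_mem]
  exact mem_pI.2 ⟨1, one_mul _⟩

/-- Reduction of matrices modulo an ideal. -/
def rd (ι : Type) [Fintype ι] [DecidableEq ι] (I : Ideal R) [I.IsTwoSided] :
    Matrix ι ι R →+* Matrix ι ι (R ⧸ I) := (Ideal.Quotient.mk I).mapMatrix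

variable {ι : Type} [Fintype ι] [DecidableEq ι]

theorem rd_apply (I : Ideal R) [I.IsTwoSided] (A : Matrix ι ι R) (i j : ι) :
    rd ι I A i j = Ideal.Quotient.mk I (A i j) := rfl

theorem rd_zero_iff (I : Ideal R) [I.IsTwoSided] (A : Matrix ι ι R) :
    rd ι I A = 0 ↔ ∀ i j, A i j ∈ I := by
  constructor
  · intro h i j
    rw [← Ideal.Quotient.eq_zero_iff_mem, ← rd_apply, h]
    rfl
  · intro h
    ext i j
    rw [rd_apply]
    exact Ideal.Quotient.eq_zero_iff_mem.2 (h i j)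

theorem cast_mul_apply (c : ℕ) (Z : Matrix ι ι R) (i j : ι) :
    ((c : Matrix ι ι R) * Z) i j = (c : R) * Z i j := by
  rw [← map_natCast (Matrix.scalar ι), Matrix.scalar_apply, Matrix.diagonal_mul]

theorem castM (c : ℕ) (h : (c : R) = 0) : ((c : ℕ) : Matrix ι ι R) = 0 := by
  rw [← map_natCast (Matrix.scalar ι), h, map_zero]

theorem exists_cast {p : ℕ} {W : Matrix ι ι R} (h : rd ι (pI R p) W = 0) :
    ∃ Z, W = (p : Matrix ι ι R) * Z := by
  rw [rd_zero_iff] at h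
  choose Z hZ using fun i j => mem_pI.1 (h i j)
  refine ⟨Matrix.of Z, ?_⟩
  ext i j
  rw [cast_mul_apply, Matrix.of_apply, ← hZ i j, (Nat.cast_commute p (Z i j)).eq]

theorem rd_aeval (I : Ideal R) [I.IsTwoSided] (A : Matrix ι ι R) (F : ℤ[X]) :
    rd ι I (aeval A F) = aeval (rd ι I A) F :=
  (Polynomial.aeval_algHom_apply (rd ι I).toIntAlgHom A F).symm

/-- **From primes to all moduli.** -/
theorem red_mul {A : Matrix ι ι R} {S : ℤ[X] → Prop} (h1 : S 1)
    (hS : ∀ F G, S F → S G → S (F * G))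
    (H : ∀ p : ℕ, p.Prime → ∃ F, S F ∧ aeval (rd ι (pI R p) A) F = 0) :
    ∀ c : ℕ, c ≠ 0 → ∃ F, S F ∧ ∃ Z, aeval A F = (c : Matrix ι ι R) * Z := by
  intro c
  induction c using Nat.recOnMul with
  | zero => intro h; exact absurd rfl h
  | one => intro _; exact ⟨1, h1, 1, by simp⟩
  | prime p hp =>
    intro _
    obtain ⟨F, hF, hF0⟩ := H p hp
    rw [← rd_aeval] at hF0
    exact ⟨F, hF, exists_cast hF0⟩
  | mul a b ha hb =>
    intro hab
    obtain ⟨F, hF, Z, hZ⟩ := ha (left_ne_zero_of_mul hab)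
    obtain ⟨G, hG, Z', hZ'⟩ := hb (right_ne_zero_of_mul hab)
    refine ⟨F * G, hS _ _ hF hG, Z * Z', ?_⟩
    rw [map_mul, hZ, hZ', Nat.cast_mul]
    rw [mul_assoc, mul_assoc, ← mul_assoc Z, (Nat.cast_commute b Z).eq.symm, mul_assoc]

theorem red_zero {A : Matrix ι ι R} {S : ℤ[X] → Prop} (h1 : S 1)
    (hS : ∀ F G, S F → S G → S (F * G))
    (H : ∀ p : ℕ, p.Prime → ∃ F, S F ∧ aeval (rd ι (pI R p) A) F = 0)
    {c : ℕ} (hc : 0 < c) (hcR : (c : R) = 0) : ∃ F, S F ∧ aeval A F = 0 := by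
  obtain ⟨F, hF, Z, hZ⟩ := red_mul h1 hS H c hc.ne'
  exact ⟨F, hF, by rw [hZ, castM c hcR, zero_mul]⟩

/-- If the reductions modulo all primes are integral, powers repeat. -/
theorem rep_of_mod {A : Matrix ι ι R} {c : ℕ} (hc : 0 < c) (hcR : (c : R) = 0)
    (H : ∀ p : ℕ, p.Prime → IsIntegral ℤ (rd ι (pI R p) A)) :
    ∃ m k : ℕ, 1 ≤ k ∧ k < m ∧ A ^ m = A ^ k := by
  obtain ⟨F, hF, h0⟩ := red_zero (A := A) (S := Polynomial.Monic) monic_one
    (fun F G hF hG => hF.mul hG) (fun p hp => H p hp) hc hcR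
  exact rep_of_int hc (castM c hcR) ⟨F, hF, h0⟩

/-- If the reductions modulo all primes are nilpotent, the matrix is nilpotent. -/
theorem nil_of_mod {A : Matrix ι ι R} {c : ℕ} (hc : 0 < c) (hcR : (c : R) = 0)
    (H : ∀ p : ℕ, p.Prime → IsNilpotent (rd ι (pI R p) A)) : IsNilpotent A := by
  obtain ⟨F, ⟨N, rfl⟩, h0⟩ := red_zero (A := A) (S := fun F => ∃ N : ℕ, F = X ^ N) ⟨0, by simp⟩
    (fun F G hF hG => by
      obtain ⟨a, rfl⟩ := hF
      obtain ⟨b, rfl⟩ := hG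
      exact ⟨a + b, by rw [pow_add]⟩) (fun p hp => by
      obtain ⟨N, hN⟩ := H p hp
      exact ⟨X ^ N, ⟨N, rfl⟩, by rw [map_pow, aeval_X, hN]⟩) hc hcR
  rw [map_pow, aeval_X] at h0
  exact ⟨N, h0⟩

end

/-- Algebraic elements over a prime field are those with repeating powers. -/
theorem alg_iff_rep {p : ℕ} [Fact p.Prime] {A : Type u} [Ring A] [Algebra (ZMod p) A] (x : A) :
    IsAlgebraic (ZMod p) x ↔ ∃ m k : ℕ, 1 ≤ k ∧ k < m ∧ x ^ m = x ^ k := by
  constructor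
  · intro h
    rw [isAlgebraic_iff_isIntegral] at h
    have h1 := h.fg_adjoin_singleton
    haveI : Module.Finite (ZMod p) (Subalgebra.toSubmodule (Algebra.adjoin (ZMod p) {x})) :=
      Module.Finite.iff_fg.2 h1
    haveI : Finite (Subalgebra.toSubmodule (Algebra.adjoin (ZMod p) {x})) :=
      Module.finite_of_finite (ZMod p)
    exact rep_of_finite (s := (Algebra.adjoin (ZMod p) {x} : Set A)) (Set.toFinite
      ((Subalgebra.toSubmodule (Algebra.adjoin (ZMod p) {x})) : Set A)) fun n =>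
      (Algebra.adjoin (ZMod p) {x}).pow_mem (Algebra.subset_adjoin rfl) n
  · rintro ⟨m, k, h1, h2, h3⟩
    refine ⟨X ^ m - X ^ k, ?_, ?_⟩
    · refine (monic_X_pow_sub ?_).ne_zero
      rw [degree_X_pow]
      exact_mod_cast h2
    · rw [map_sub, map_pow, map_pow, aeval_X, h3, sub_self]

theorem alg_iff_per {p : ℕ} [Fact p.Prime] {A : Type u} [Ring A] [Algebra (ZMod p) A] :
    Algebra.IsAlgebraic (ZMod p) A ↔ Per A := by
  rw [Algebra.isAlgebraic_def]
  exact forall_congr' fun x => alg_iff_rep x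

theorem algMat_iff : AlgMat.{u} ↔
    ∀ (R : Type u) [Ring R], Per R → ∀ n : ℕ, Per (Matrix (Fin n) (Fin n) R) := by
  constructor
  · intro h R _ hR n A
    obtain ⟨c, hc, hcR⟩ := hR.char
    refine rep_of_mod hc hcR fun p hp => ?_
    haveI : Fact p.Prime := ⟨hp⟩
    have h0 : ((p : ℕ) : R ⧸ pI R p) = 0 := pI_zero p
    letI : Algebra (ZMod p) (R ⧸ pI R p) :=
      ZMod.algebra' (R ⧸ pI R p) (ringChar (R ⧸ pI R p)) (ringChar.dvd h0)
    have h1 : Per (R ⧸ pI R p) := hR.of_surj (Ideal.Quotient.mk (pI R p))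
      Ideal.Quotient.mk_surjective
    have h2 := alg_iff_per.1 (h p (R ⧸ pI R p) (alg_iff_per.2 h1) n)
    obtain ⟨m, k, -, a2, a3⟩ := h2 (rd (Fin n) (pI R p) A)
    exact int_of_rep a2 a3
  · intro h p _ A _ _ hA n
    exact alg_iff_per.2 (h A (alg_iff_per.1 hA) n)

/-- Matrices over commutative periodic rings are periodic. -/
theorem per_comm {A : Type u} [CommRing A] (hA : Per A) (n : ℕ) :
    Per (Matrix (Fin n) (Fin n) A) := by
  intro B
  obtain ⟨c, hc, hcA⟩ := hA.char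
  let S := Algebra.adjoin ℤ (Set.range fun ij : Fin n × Fin n => B ij.1 ij.2)
  have h1 : (S : Set A).Finite := by
    refine fin_of_fg hc hcA (N := Subalgebra.toSubmodule S)
      (fg_adjoin_of_finite (Set.finite_range _) ?_)
    rintro x -
    obtain ⟨m, k, -, a2, a3⟩ := hA x
    exact int_of_rep a2 a3
  have h2 : {Y : Fin n → Fin n → A | ∀ i, Y i ∈ {g : Fin n → A | ∀ j, g j ∈ (S : Set A)}}.Finite :=
    Set.Finite.pi' fun _ => Set.Finite.pi' fun _ => h1
  refine rep_of_finite (s := {Y : Matrix (Fin n) (Fin n) A | ∀ i j, Y i j ∈ (S : Set A)}) h2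
    fun k => ?_
  have h3 : B ^ k ∈ S.matrix (n := Fin n) := by
    refine pow_mem ?_ k
    intro i j
    exact Algebra.subset_adjoin ⟨(i, j), rfl⟩
  exact h3

end Pool.PUU
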