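import Mathlib

/-!
# Periodic rings and the pi-UU property of matrix rings: definitions
-/

set_option autoImplicit false

namespace Pool.PUU

universe u

/-- A ring is periodic: every `x` has `x ^ m = x ^ k` for some `m > k ≥ 1`. -/
def Per (R : Type u) [Ring R] : Prop := ∀ x : R, ∃ m k : ℕ, 1 ≤ k ∧ k < m ∧ x ^ m = x ^ k

/-- A ring is pi-UU: for every unit `v` some `v ^ i - 1`, `i ≥ 1`, is nilpotent. -/
def PiUU (R : Type u) [Ring R] : Prop := ∀ v : Rˣ, ∃ i : ℕ, 1 ≤ i ∧ IsNilpotent ((v : R) ^ i - 1)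

/-- **The assertion of Q1**: all matrix rings over periodic rings are pi-UU. -/
def Q1 : Prop := ∀ (R : Type u) [Ring R], Per R → ∀ n : ℕ, PiUU (Matrix (Fin n) (Fin n) R)

/-- Matrix rings over algebraic algebras over prime fields are algebraic. -/
def AlgMat : Prop := ∀ (p : ℕ) [Fact p.Prime] (A : Type u) [Ring A] [Algebra (ZMod p) A],
  Algebra.IsAlgebraic (ZMod p) A → ∀ n : ℕ, Algebra.IsAlgebraic (ZMod p) (Matrix (Fin n) (Fin n) A)

/-- **Koethe's conjecture for rings of characteristic `p`**: the sum of two nil left ideals is nil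
(`Ideal` is a left ideal). -/
def Koethe (p : ℕ) : Prop := ∀ (T : Type u) [Ring T], (p : T) = 0 → ∀ L₁ L₂ : Ideal T,
  (∀ x ∈ L₁, IsNilpotent x) → (∀ x ∈ L₂, IsNilpotent x) → ∀ x ∈ L₁, ∀ y ∈ L₂, IsNilpotent (x + y)

/-- The ring is commutative modulo a nil two-sided ideal. -/
def NilComm (R : Type u) [Ring R] : Prop :=
  ∃ I : Ideal R, I.IsTwoSided ∧ (∀ x ∈ I, IsNilpotent x) ∧ ∀ x y : R, x * y - y * x ∈ I

/-- The ring has characteristic `p` and is the sum of the prime ring and a nil two-sided ideal. -/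
def NilPrime (p : ℕ) (R : Type u) [Ring R] : Prop := (p : R) = 0 ∧
  ∃ N : Ideal R, N.IsTwoSided ∧ (∀ x ∈ N, IsNilpotent x) ∧ ∀ x : R, ∃ k : ℤ, x - k ∈ N

/-- `R` is a finitely generated ring. -/
def FinGen (R : Type u) [Ring R] : Prop := ∃ s : Finset R, Subring.closure (s : Set R) = ⊤

/-- `R` is a prime ring. -/
def PrimeR (R : Type u) [Ring R] : Prop :=
  (1 : R) ≠ 0 ∧ ∀ a b : R, (∀ r : R, a * r * b = 0) → a = 0 ∨ b = 0

/-- `R` is a (left) primitive ring: it has a faithful simple module. -/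
def PrimitiveR (R : Type u) [Ring R] : Prop :=
  ∃ (M : Type u) (_ : AddCommGroup M) (_ : Module R M), IsSimpleModule R M ∧
    ∀ r : R, (∀ m : M, r • m = 0) → r = 0

end Pool.PUU
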