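import Pool.Agent.H55.PUU.Koe

/-!
# From pi-UU `2 × 2` matrix rings to Koethe's conjecture
-/

set_option autoImplicit false

namespace Pool.PUU

universe u

section

variable {R : Type u} [Ring R]

theorem nil_le_jac {L : Ideal R} (hL : ∀ x ∈ L, IsNilpotent x) :
    L ≤ (⊥ : Ideal R).jacobson := by
  intro x hx
  rw [Ideal.mem_jacobson_iff]
  intro y
  obtain ⟨v, hv⟩ := (hL _ (L.mul_mem_left y hx)).isUnit_one_add
  refine ⟨(v⁻¹ : Rˣ), ?_⟩
  have h1 : ((v⁻¹ : Rˣ) : R) * y * x + ((v⁻¹ : Rˣ) : R) - 1 = 0 := by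
    have h2 : ((v⁻¹ : Rˣ) : R) * (1 + y * x) = 1 := by rw [← hv]; exact v.inv_mul
    rw [mul_add, mul_one, ← mul_assoc] at h2
    rw [add_comm, h2, sub_self]
  rw [h1]
  exact Ideal.zero_mem _

variable {ι : Type} [Fintype ι] [DecidableEq ι]

theorem left_inv {L : Ideal R} (hL : ∀ x ∈ L, IsNilpotent x) {B : Matrix ι ι R}
    (hB : B ∈ L.matrix ι) : ∃ Z : Matrix ι ι R, Z * (1 + B) = 1 := by
  have h1 : B ∈ ((⊥ : Ideal R).matrix ι).jacobson :=
    Ideal.matrix_jacobson_le ⊥ (Ideal.matrix_monotone ι (nil_le_jac hL) hB)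
  obtain ⟨Z, hZ⟩ := Ideal.mem_jacobson_iff.1 h1 1
  refine ⟨Z, ?_⟩
  have h2 : Z * 1 * B + Z - 1 = 0 := by
    ext i j
    exact (Submodule.mem_bot R).1 (hZ i j)
  rw [mul_one] at h2
  rw [mul_add, mul_one, add_comm, sub_eq_zero.1 h2]

theorem exists_unit {L : Ideal R} (hL : ∀ x ∈ L, IsNilpotent x) {B : Matrix ι ι R}
    (hB : B ∈ L.matrix ι) : ∃ v : (Matrix ι ι R)ˣ, (v : Matrix ι ι R) = 1 + B := by
  obtain ⟨Z, hZ⟩ := left_inv hL hB
  have h1 : Z = 1 + -(Z * B) := by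
    rw [mul_add, mul_one] at hZ
    rw [← hZ]
    abel
  obtain ⟨Z', hZ'⟩ := left_inv hL (B := -(Z * B)) ((L.matrix ι).neg_mem ((L.matrix ι).mul_mem_left Z hB))
  rw [← h1] at hZ'
  have h2 : Z' = 1 + B := by
    calc Z' = Z' * (Z * (1 + B)) := by rw [hZ, mul_one]
      _ = 1 + B := by rw [← mul_assoc, hZ', one_mul]
  refine ⟨⟨1 + B, Z, ?_, hZ⟩, rfl⟩
  rw [← h2, hZ']

theorem geom_mem {L : Ideal R} {C : Matrix ι ι R} (hC : C ∈ L.matrix ι) (n : ℕ) :
    (∑ l ∈ Finset.range n, (1 + C) ^ l) - (n : Matrix ι ι R) ∈ L.matrix ι := by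
  have h1 : ∀ l : ℕ, (1 + C) ^ l - 1 ∈ L.matrix ι := by
    intro l
    have h2 := geom_sum_mul (1 + C) l
    rw [add_sub_cancel_left] at h2
    rw [← h2]
    exact (L.matrix ι).mul_mem_left _ hC
  have h3 : (∑ l ∈ Finset.range n, (1 + C) ^ l) - (n : Matrix ι ι R) =
      ∑ l ∈ Finset.range n, ((1 + C) ^ l - 1) := by
    rw [Finset.sum_sub_distrib, Finset.sum_const, Finset.card_range, nsmul_one]
  rw [h3]
  exact (L.matrix ι).sum_mem fun l _ => h1 l

/-- **Unipotent units of finite order.** If the matrix ring is pi-UU, all matrices over a nil left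
ideal are nilpotent. -/
theorem nilmat_of_piUU {p : ℕ} (hp : p.Prime) (hpR : (p : R) = 0) {L : Ideal R}
    (hL : ∀ x ∈ L, IsNilpotent x) (h : PiUU (Matrix ι ι R)) {B : Matrix ι ι R}
    (hB : ∀ i j, B i j ∈ L) : IsNilpotent B := by
  rcases subsingleton_or_nontrivial (Matrix ι ι R) with hs | hs
  · exact ⟨1, Subsingleton.elim _ _⟩
  have hpM : ((p : ℕ) : Matrix ι ι R) = 0 := castM p hpR
  have hcp : CharP (Matrix ι ι R) p := (CharP.charP_iff_prime_eq_zero hp).2 hpM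
  have hBm : B ∈ L.matrix ι := hB
  obtain ⟨v, hv⟩ := exists_unit hL hBm
  obtain ⟨i, hi, hn⟩ := h v
  obtain ⟨-, j, hj, hvj⟩ := unit_ord hp.pos hpM hi hn
  obtain ⟨e, i', hi', hji⟩ := Nat.exists_eq_pow_mul_and_not_dvd (n := j) (by omega) p hp.ne_one
  have hfact : Fact p.Prime := ⟨hp⟩
  have h1 : (1 + B) ^ p ^ e = 1 + B ^ p ^ e := by
    rw [add_pow_char_pow_of_commute p e (Commute.one_left B), one_pow]
  have h2 : (1 + B ^ p ^ e) ^ i' = 1 := by
    rw [← h1, ← pow_mul, ← hji, ← hv, ← Units.val_pow_eq_pow_val, hvj, Units.val_one]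
  have hC : B ^ p ^ e ∈ L.matrix ι := by
    obtain ⟨q, hq⟩ : ∃ q, p ^ e = q + 1 := ⟨p ^ e - 1, by
      have := pow_pos hp.pos e
      omega⟩
    rw [hq, pow_succ]
    exact (L.matrix ι).mul_mem_left _ hBm
  obtain ⟨C, hCd⟩ : ∃ C, C = B ^ p ^ e := ⟨_, rfl⟩
  rw [← hCd] at h2 hC
  have h3 := geom_sum_mul (1 + C) i'
  rw [add_sub_cancel_left, h2, sub_self] at h3
  obtain ⟨E, hE⟩ : ∃ E, E = (∑ l ∈ Finset.range i', (1 + C) ^ l) - (i' : Matrix ι ι R) := ⟨_, rfl⟩
  have hEm : E ∈ L.matrix ι := by rw [hE]; exact geom_mem hC i'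
  have hD : (∑ l ∈ Finset.range i', (1 + C) ^ l) = (i' : Matrix ι ι R) + E := by rw [hE]; abel
  rw [hD] at h3
  have hcop : IsCoprime (i' : ℤ) (p : ℤ) :=
    Nat.isCoprime_iff_coprime.2 ((Nat.Prime.coprime_iff_not_dvd hp).2 hi').symm
  obtain ⟨a, b, hab⟩ := hcop
  have h4 : (a : Matrix ι ι R) * (i' : Matrix ι ι R) = 1 := by
    have h5 := congrArg (fun z : ℤ => (z : Matrix ι ι R)) hab
    simp only [Int.cast_add, Int.cast_mul, Int.cast_natCast, Int.cast_one] at h5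
    rw [hpM, mul_zero, add_zero] at h5
    exact h5
  obtain ⟨Z, hZ⟩ := left_inv hL (B := (a : Matrix ι ι R) * E) ((L.matrix ι).mul_mem_left _ hEm)
  have h6 : C = 0 := by
    calc C = Z * (1 + (a : Matrix ι ι R) * E) * C := by rw [hZ, one_mul]
      _ = Z * (a : Matrix ι ι R) * (((i' : Matrix ι ι R) + E) * C) := by
          rw [← h4]
          simp only [mul_add, add_mul, mul_assoc]
      _ = 0 := by rw [h3, mul_zero]
  exact ⟨p ^ e, by rw [← hCd, h6]⟩

end

/-- The sum of the prime ring and a left ideal. -/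
def prS {T : Type u} [Ring T] (L : Ideal T) : Subring T where
  carrier := {x | ∃ k : ℤ, x - k ∈ L}
  mul_mem' := by
    rintro x y ⟨k, hx⟩ ⟨l, hy⟩
    refine ⟨k * l, ?_⟩
    have h1 : x * y - ((k * l : ℤ) : T) = x * (y - l) + l * (x - k) := by
      have e1 := (Int.cast_commute l x).eq
      have e2 := (Int.cast_commute l (k : T)).eq
      rw [Int.cast_mul, mul_sub, mul_sub, e1, e2]
      abel
    rw [h1]
    exact L.add_mem (L.mul_mem_left _ hy) (L.mul_mem_left _ hx)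
  one_mem' := ⟨1, by rw [Int.cast_one, sub_self]; exact L.zero_mem⟩
  add_mem' := by
    rintro x y ⟨k, hx⟩ ⟨l, hy⟩
    refine ⟨k + l, ?_⟩
    have h1 : x + y - ((k + l : ℤ) : T) = (x - k) + (y - l) := by
      rw [Int.cast_add]
      abel
    rw [h1]
    exact L.add_mem hx hy
  zero_mem' := ⟨0, by rw [Int.cast_zero, sub_self]; exact L.zero_mem⟩
  neg_mem' := by
    rintro x ⟨k, hx⟩
    refine ⟨-k, ?_⟩
    have h1 : -x - ((-k : ℤ) : T) = -(x - k) := by
      rw [Int.cast_neg]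
      abel
    rw [h1]
    exact L.neg_mem hx

theorem prS_nilPrime {p : ℕ} {T : Type u} [Ring T] (hpT : (p : T) = 0) {L : Ideal T}
    (hL : ∀ x ∈ L, IsNilpotent x) : NilPrime p (prS L) := by
  refine ⟨Subtype.ext (by push_cast; exact hpT), L.comap (prS L).subtype, ⟨?_⟩, ?_, ?_⟩
  · rintro ⟨x, hx'⟩ ⟨b, k, hb⟩ hx
    change x * b ∈ L
    have hx1 : x ∈ L := hx
    have h1 : x * b = x * (b - k) + k * x := by
      rw [mul_sub, (Int.cast_commute k x).eq]
      abel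
    rw [h1]
    exact L.add_mem (L.mul_mem_left _ hb) (L.mul_mem_left _ hx1)
  · rintro ⟨x, hx'⟩ hx
    obtain ⟨N, hN⟩ := hL x hx
    exact ⟨N, Subtype.ext hN⟩
  · rintro ⟨x, k, hx⟩
    refine ⟨k, ?_⟩
    change ((⟨x, k, hx⟩ - (k : prS L) : prS L) : T) ∈ L
    push_cast
    exact hx

/-- `2 × 2` matrices over a nil left ideal. -/
theorem nil_two {p : ℕ} (hp : p.Prime)
    (h : ∀ (R : Type u) [Ring R], NilPrime p R → PiUU (Matrix (Fin 2) (Fin 2) R))
    {T : Type u} [Ring T] (hpT : (p : T) = 0) {L : Ideal T} (hL : ∀ x ∈ L, IsNilpotent x)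
    {B : Matrix (Fin 2) (Fin 2) T} (hB : ∀ i j, B i j ∈ L) : IsNilpotent B := by
  have h1 := prS_nilPrime (p := p) hpT hL
  have h2 : ∀ i j, B i j ∈ prS L := fun i j => ⟨0, by rw [Int.cast_zero, sub_zero]; exact hB i j⟩
  have h3 : IsNilpotent (Matrix.of fun i j => (⟨B i j, h2 i j⟩ : prS L) :
      Matrix (Fin 2) (Fin 2) (prS L)) := by
    refine nilmat_of_piUU hp h1.1 (L := L.comap (prS L).subtype) ?_ (h _ h1) fun i j => hB i j
    rintro ⟨x, hx'⟩ hx
    obtain ⟨N, hN⟩ := hL x hx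
    exact ⟨N, Subtype.ext hN⟩
  exact h3.map (prS L).subtype.mapMatrix

/-- All matrices over a nil left ideal. -/
theorem nil_all {p : ℕ} (hp : p.Prime)
    (h : ∀ (R : Type u) [Ring R], NilPrime p R → PiUU (Matrix (Fin 2) (Fin 2) R)) :
    ∀ n, ∀ (T : Type u) [Ring T], (p : T) = 0 → ∀ L : Ideal T, (∀ x ∈ L, IsNilpotent x) →
      ∀ B : Matrix (Fin n) (Fin n) T, (∀ i j, B i j ∈ L) → IsNilpotent B := by
  refine ind2 ?_ ?_ ?_
  · intro T _ hpT L hL B hB
    exact nil_two hp h hpT hL hB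
  · intro n hn T _ hpT L hL B hB
    let e : Matrix (Fin 2) (Fin 2) (Matrix (Fin n) (Fin n) T) ≃+* Matrix (Fin (2 * n)) (Fin (2 * n)) T :=
      (Matrix.compRingEquiv (Fin 2) (Fin n) T).trans (Matrix.reindexRingEquiv T finProdFinEquiv)
    have h1 : IsNilpotent (e.symm B) := by
      refine nil_two hp h (castM p hpT) (L := L.matrix (Fin n)) (fun Y hY => hn T hpT L hL Y hY) ?_
      intro i j i' j'
      exact hB _ _
    have h2 := h1.map e
    rw [e.apply_symm_apply] at h2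
    exact h2
  · intro a b hab T _ hpT L hL B hB
    have h1 := hab T hpT L hL (Matrix.reindexRingEquiv T finSumFinEquiv (Matrix.fromBlocks B 0 0 0))
      (by
        intro i j
        change Matrix.fromBlocks B 0 0 0 ((finSumFinEquiv (m := a) (n := b)).symm i)
          ((finSumFinEquiv (m := a) (n := b)).symm j) ∈ L
        rcases (finSumFinEquiv (m := a) (n := b)).symm i with i | i <;>
        rcases (finSumFinEquiv (m := a) (n := b)).symm j with j | j
        · exact hB i j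
        · exact L.zero_mem
        · exact L.zero_mem
        · exact L.zero_mem)
    have h2 := h1.map (Matrix.reindexRingEquiv T (finSumFinEquiv (m := a) (n := b))).symm
    rw [RingEquiv.symm_apply_apply] at h2
    obtain ⟨N, hN⟩ := h2
    rw [Matrix.fromBlocks_diagonal_pow] at hN
    refine ⟨N, ?_⟩
    have h3 := congrArg Matrix.toBlocks₁₁ hN
    rw [Matrix.toBlocks_fromBlocks₁₁] at h3
    rw [h3]
    rfl

/-- Elements of the two-sided ideal generated by a nil left ideal. -/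
theorem nil_sum {T : Type u} [Ring T] {L : Ideal T} {s : ℕ}
    (h : ∀ B : Matrix (Fin s) (Fin s) T, (∀ i j, B i j ∈ L) → IsNilpotent B)
    {a r : Fin s → T} (ha : ∀ i, a i ∈ L) : IsNilpotent (∑ i, a i * r i) := by
  obtain ⟨K, hK⟩ := h (Matrix.of fun i j => r i * a j) fun i j => L.mul_mem_left _ (ha j)
  obtain ⟨M, hM⟩ : ∃ M : Matrix (Fin s) (Fin s) T, M = Matrix.of fun i j => r i * a j := ⟨_, rfl⟩
  rw [← hM] at hK
  have h1 : ∀ k : ℕ, (∑ i, a i * r i) ^ (k + 1) = ∑ i, a i * (Matrix.mulVec (M ^ k) r) i := by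
    intro k
    induction k with
    | zero => rw [zero_add, pow_one, pow_zero, Matrix.one_mulVec]
    | succ k ih =>
      rw [pow_succ', ih, Finset.sum_mul]
      refine Finset.sum_congr rfl fun i _ => ?_
      rw [pow_succ' M k, ← Matrix.mulVec_mulVec, mul_assoc]
      congr 1
      rw [Matrix.mulVec, dotProduct, Finset.mul_sum]
      refine Finset.sum_congr rfl fun j _ => ?_
      rw [hM, Matrix.of_apply, mul_assoc]
  refine ⟨K + 1, ?_⟩
  rw [h1, hK]
  refine Finset.sum_eq_zero fun i _ => ?_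
  rw [Matrix.zero_mulVec, Pi.zero_apply, mul_zero]

/-- **From pi-UU `2 × 2` matrix rings to Koethe's conjecture.** -/
theorem koethe_of_piUU {p : ℕ} (hp : p.Prime)
    (h : ∀ (R : Type u) [Ring R], NilPrime p R → PiUU (Matrix (Fin 2) (Fin 2) R)) :
    Koethe.{u} p := by
  intro T _ hpT L₁ L₂ hL₁ hL₂ x hx y hy
  obtain ⟨K, hKd⟩ : ∃ K : Ideal T, K = Ideal.span (Set.range fun t : T => x * t) := ⟨_, rfl⟩
  have hx1 : ∀ t, x * t ∈ K := fun t => by rw [hKd]; exact Ideal.subset_span ⟨t, rfl⟩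
  have hK : ∀ z ∈ K, IsNilpotent z := by
    intro z hz
    rw [hKd] at hz
    obtain ⟨s, f, g, rfl⟩ := Submodule.mem_span_set'.1 hz
    choose r hr using fun i => (g i).2
    have h1 : ∑ i, f i • (g i : T) = ∑ i, (f i * x) * r i := by
      refine Finset.sum_congr rfl fun i _ => ?_
      rw [smul_eq_mul, ← hr i, mul_assoc]
    rw [h1]
    exact nil_sum (L := L₁) (nil_all hp h s T hpT L₁ hL₁) fun i => L₁.mul_mem_left _ hx
  obtain ⟨m, hm⟩ := hL₂ y hy
  have h2 : ∀ k : ℕ, (x + y) ^ k - y ^ k ∈ K := by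
    intro k
    induction k with
    | zero => rw [pow_zero, pow_zero, sub_self]; exact K.zero_mem
    | succ k ih =>
      have h3 : (x + y) ^ (k + 1) - y ^ (k + 1) = (x + y) * ((x + y) ^ k - y ^ k) + x * y ^ k := by
        rw [pow_succ', pow_succ', mul_sub, add_mul x y (y ^ k)]
        abel
      rw [h3]
      exact K.add_mem (K.mul_mem_left _ ih) (hx1 _)
  have h4 := h2 m
  rw [hm, sub_zero] at h4
  obtain ⟨N, hN⟩ := hK _ h4
  exact ⟨m * N, by rw [pow_mul, hN]⟩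

end Pool.PUU
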