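import Pool.Agent.H55.PUU.Char

/-!
# Koethe's conjecture in prime characteristic and matrices over periodic rings
-/

set_option autoImplicit false

namespace Pool.PUU

open Polynomial

universe u

theorem NilPrime.per {p : ℕ} (hp : p.Prime) {R : Type u} [Ring R] (h : NilPrime p R) : Per R := by
  obtain ⟨h0, N, -, hN, hk⟩ := h
  intro x
  obtain ⟨k, hx⟩ := hk x
  refine rep_of_int hp.pos h0 (int_of_nil (f := X - C k) (monic_X_sub_C k) ?_)
  rw [map_sub, aeval_X, aeval_C]
  exact hN _ hx

theorem NilPrime.nilComm {p : ℕ} {R : Type u} [Ring R] (h : NilPrime p R) : NilComm R := by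
  obtain ⟨-, N, hN2, hN, hk⟩ := h
  refine ⟨N, hN2, hN, fun x y => ?_⟩
  obtain ⟨k, hx⟩ := hk x
  obtain ⟨l, hy⟩ := hk y
  have h1 : x * y - y * x = (x - k) * (y - l) - (y - l) * (x - k) := by
    have e1 := (Int.cast_commute k y).eq
    have e2 := (Int.cast_commute l x).eq
    have e3 := (Int.cast_commute k (l : R)).eq
    rw [sub_mul, mul_sub, mul_sub, sub_mul, mul_sub, mul_sub, e1, e2, e3]
    abel
  rw [h1]
  exact N.sub_mem (N.mul_mem_left _ hy) (N.mul_mem_left _ hx)

section

variable {R : Type u} [Ring R]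

/-- Matrices with entries in a left ideal supported on the columns in `s`. -/
def colI (L : Ideal R) {n : ℕ} (s : Finset (Fin n)) : Ideal (Matrix (Fin n) (Fin n) R) where
  carrier := {B | ∀ i l, B i l ∈ L ∧ (l ∉ s → B i l = 0)}
  add_mem' := fun {A B} hA hB i l => ⟨L.add_mem (hA i l).1 (hB i l).1, fun h => by
    rw [Matrix.add_apply, (hA i l).2 h, (hB i l).2 h, add_zero]⟩
  zero_mem' := fun i l => ⟨L.zero_mem, fun _ => rfl⟩
  smul_mem' := fun A B hB i l => by
    rw [smul_eq_mul, Matrix.mul_apply]
    refine ⟨L.sum_mem fun m _ => L.mul_mem_left _ (hB m l).1, fun h => ?_⟩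
    exact Finset.sum_eq_zero fun m _ => by rw [(hB m l).2 h, mul_zero]

theorem col_pow {n : ℕ} {B : Matrix (Fin n) (Fin n) R} {j : Fin n}
    (h : ∀ i l, l ≠ j → B i l = 0) (k : ℕ) (i l : Fin n) :
    (B ^ (k + 1)) i l = if l = j then B i j * (B j j) ^ k else 0 := by
  induction k generalizing i l with
  | zero =>
    rw [zero_add, pow_one, pow_zero, mul_one]
    split_ifs with h1
    · rw [h1]
    · exact h i l h1
  | succ k ih =>
    rw [pow_succ, Matrix.mul_apply, Finset.sum_eq_single j]
    · rw [ih, if_pos rfl]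
      split_ifs with h1
      · rw [h1, pow_succ, mul_assoc]
      · rw [h j l h1, mul_zero]
    · intro m _ hm
      rw [ih, if_neg hm, zero_mul]
    · intro hj
      exact absurd (Finset.mem_univ j) hj

theorem col_nil {n : ℕ} {L : Ideal R} (hL : ∀ x ∈ L, IsNilpotent x) {j : Fin n}
    {B : Matrix (Fin n) (Fin n) R} (hB : B ∈ colI L {j}) : IsNilpotent B := by
  obtain ⟨K, hK⟩ := hL _ (hB j j).1
  refine ⟨K + 1, ?_⟩
  ext i l
  rw [col_pow (fun i l hl => (hB i l).2 (by simpa using hl)), hK, mul_zero, ite_self]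
  rfl

/-- Matrices over a nil left ideal are nilpotent, from Koethe's conjecture. -/
theorem nilmat_of_koethe {p : ℕ} (hK : Koethe.{u} p) (hp : (p : R) = 0) {L : Ideal R}
    (hL : ∀ x ∈ L, IsNilpotent x) {n : ℕ} {B : Matrix (Fin n) (Fin n) R}
    (hB : ∀ i j, B i j ∈ L) : IsNilpotent B := by
  have key : ∀ s : Finset (Fin n), ∀ B ∈ colI L s, IsNilpotent B := by
    intro s
    induction s using Finset.induction_on with
    | empty =>
      intro B hB
      have h0 : B = 0 := by
        ext i l
        exact (hB i l).2 (Finset.notMem_empty l)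
      rw [h0]
      exact IsNilpotent.zero
    | insert j s hj ih =>
      intro B hB
      have h1 := hK (Matrix (Fin n) (Fin n) R) (castM p hp) (colI L {j}) (colI L s)
        (fun x hx => col_nil hL hx) ih
        (Matrix.of fun i l => if l = j then B i l else 0) (fun i l => by
          rw [Matrix.of_apply]
          split_ifs with h2
          · exact ⟨(hB i l).1, fun h3 => absurd (Finset.mem_singleton.2 h2) h3⟩
          · exact ⟨L.zero_mem, fun _ => rfl⟩)
        (Matrix.of fun i l => if l = j then 0 else B i l) (fun i l => by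
          rw [Matrix.of_apply]
          split_ifs with h2
          · exact ⟨L.zero_mem, fun _ => rfl⟩
          · exact ⟨(hB i l).1, fun h3 => (hB i l).2 (by
              rw [Finset.mem_insert, not_or]; exact ⟨h2, h3⟩)⟩)
      have h2 : (Matrix.of fun i l => if l = j then B i l else 0) +
          (Matrix.of fun i l => if l = j then 0 else B i l) = B := by
        ext i l
        rw [Matrix.add_apply, Matrix.of_apply, Matrix.of_apply]
        split_ifs
        · rw [add_zero]
        · rw [zero_add]
      rw [h2] at h1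
      exact h1
  exact key Finset.univ B fun i l => ⟨hB i l, fun h => absurd (Finset.mem_univ l) h⟩

end

/-- Koethe's conjecture for all primes gives periodic matrix rings over periodic rings that are
commutative modulo a nil ideal. -/
theorem per_of_koethe (hK : ∀ p : ℕ, p.Prime → Koethe.{u} p) {R : Type u} [Ring R] (hR : Per R)
    (hI : NilComm R) (n : ℕ) : Per (Matrix (Fin n) (Fin n) R) := by
  obtain ⟨I, hI2, hIn, hIc⟩ := hI
  obtain ⟨c, hc, hcR⟩ := hR.char
  have h1 : Per (Matrix (Fin n) (Fin n) (R ⧸ I)) := by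
    let CR : CommRing (R ⧸ I) :=
      { (inferInstance : Ring (R ⧸ I)) with
        mul_comm := fun a b => by
          obtain ⟨x, rfl⟩ := Ideal.Quotient.mk_surjective a
          obtain ⟨y, rfl⟩ := Ideal.Quotient.mk_surjective b
          rw [← map_mul, ← map_mul, Ideal.Quotient.eq]
          exact hIc x y }
    exact per_comm (A := R ⧸ I) (hR.of_surj (Ideal.Quotient.mk I) Ideal.Quotient.mk_surjective) n
  intro A
  obtain ⟨m, k, a1, a2, a3⟩ := h1 (rd (Fin n) I A)
  have h2 : ∀ i j, (A ^ m - A ^ k) i j ∈ I := by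
    rw [← rd_zero_iff, map_sub, map_pow, map_pow, a3, sub_self]
  have h3 : IsNilpotent (A ^ m - A ^ k) := by
    refine nil_of_mod hc hcR fun p hp => ?_
    refine nilmat_of_koethe (hK p hp) (pI_zero p) (L := I.map (Ideal.Quotient.mk (pI R p)))
      (fun x hx => ?_) fun i j => ?_
    · obtain ⟨y, hy, rfl⟩ := (Ideal.mem_map_iff_of_surjective (Ideal.Quotient.mk (pI R p))
        Ideal.Quotient.mk_surjective).1 hx
      exact (hIn y hy).map _
    · rw [rd_apply]
      exact Ideal.mem_map_of_mem _ (h2 i j)
  refine rep_of_int hc (castM c hcR) (int_of_nil (f := X ^ m - X ^ k) ?_ ?_)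
  · refine monic_X_pow_sub ?_
    rw [degree_X_pow]
    exact_mod_cast a2
  · rw [map_sub, map_pow, map_pow, aeval_X]
    exact h3

end Pool.PUU
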