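import Pool.Agent.H55.PUU.Char

/-!
# Reduction to primitive rings

A periodic ring `A` of characteristic `p` acts on itself; together with all linear operators of finite
range it generates a primitive periodic ring that contains `A`.
-/

set_option autoImplicit false

namespace Pool.PUU

open Polynomial

universe u

section

variable {p : ℕ} [Fact p.Prime] {A : Type u} [Ring A] [Algebra (ZMod p) A]

/-- An operator with finite range. -/
def FR (T : Module.End (ZMod p) A) : Prop := (Set.range T).Finite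

theorem FR.add {T S : Module.End (ZMod p) A} (hT : FR T) (hS : FR S) : FR (T + S) := by
  refine (Set.Finite.add hT hS).subset ?_
  rintro _ ⟨v, rfl⟩
  exact Set.add_mem_add ⟨v, rfl⟩ ⟨v, rfl⟩

theorem FR.neg {T : Module.End (ZMod p) A} (hT : FR T) : FR (-T) := by
  refine (hT.image fun v => -v).subset ?_
  rintro _ ⟨v, rfl⟩
  exact ⟨T v, ⟨v, rfl⟩, rfl⟩

theorem FR.sub {T S : Module.End (ZMod p) A} (hT : FR T) (hS : FR S) : FR (T - S) := by
  rw [sub_eq_add_neg]
  exact hT.add hS.neg

theorem FR.mul_left (T : Module.End (ZMod p) A) {S : Module.End (ZMod p) A} (hS : FR S) :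
    FR (T * S) := by
  refine (hS.image T).subset ?_
  rintro _ ⟨v, rfl⟩
  exact ⟨S v, ⟨v, rfl⟩, rfl⟩

theorem FR.mul_right {T : Module.End (ZMod p) A} (hT : FR T) (S : Module.End (ZMod p) A) :
    FR (T * S) := by
  refine hT.subset ?_
  rintro _ ⟨v, rfl⟩
  exact ⟨S v, rfl⟩

theorem fr_zero : FR (0 : Module.End (ZMod p) A) := by
  refine (Set.finite_singleton (0 : A)).subset ?_
  rintro _ ⟨v, rfl⟩
  rfl

/-- Left multiplication. -/
def lm (a : A) : Module.End (ZMod p) A := Algebra.lmul (ZMod p) A a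

theorem lm_apply (a v : A) : lm (p := p) a v = a * v := rfl

theorem lm_mul (a b : A) : lm (p := p) (a * b) = lm a * lm b := by
  ext v
  exact mul_assoc a b v

theorem lm_pow (a : A) (n : ℕ) : lm (p := p) (a ^ n) = lm a ^ n := map_pow (Algebra.lmul (ZMod p) A) a n

theorem lm_add (a b : A) : lm (p := p) (a + b) = lm a + lm b := map_add (Algebra.lmul (ZMod p) A) a b

theorem lm_neg (a : A) : lm (p := p) (-a) = -lm a := map_neg (Algebra.lmul (ZMod p) A) a

/-- The ring generated by left multiplications and operators of finite range. -/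
def bigR (p : ℕ) [Fact p.Prime] (A : Type u) [Ring A] [Algebra (ZMod p) A] :
    Subring (Module.End (ZMod p) A) where
  carrier := {T | ∃ a : A, FR (T - lm a)}
  mul_mem' := by
    rintro T S ⟨a, ha⟩ ⟨b, hb⟩
    refine ⟨a * b, ?_⟩
    have h1 : T * S - lm (a * b) = (T - lm a) * S + lm a * (S - lm b) := by
      rw [lm_mul, sub_mul, mul_sub]
      abel
    rw [h1]
    exact (ha.mul_right S).add (hb.mul_left _)
  one_mem' := ⟨1, by
    have h1 : (1 : Module.End (ZMod p) A) - lm 1 = 0 := by
      ext v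
      change v - 1 * v = 0
      rw [one_mul, sub_self]
    rw [h1]
    exact fr_zero⟩
  add_mem' := by
    rintro T S ⟨a, ha⟩ ⟨b, hb⟩
    refine ⟨a + b, ?_⟩
    have h1 : T + S - lm (a + b) = (T - lm a) + (S - lm b) := by
      rw [lm_add]
      abel
    rw [h1]
    exact ha.add hb
  zero_mem' := ⟨0, by
    have h1 : (0 : Module.End (ZMod p) A) - lm 0 = 0 := by
      ext v
      change (0 : A) - 0 * v = 0
      rw [zero_mul, sub_self]
    rw [h1]
    exact fr_zero⟩
  neg_mem' := by
    rintro T ⟨a, ha⟩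
    refine ⟨-a, ?_⟩
    have h1 : -T - lm (-a) = -(T - lm a) := by
      rw [lm_neg]
      abel
    rw [h1]
    exact ha.neg

theorem mem_bigR_of_fr {T : Module.End (ZMod p) A} (h : FR T) : T ∈ bigR p A := ⟨0, by
  have h1 : T - lm 0 = T := by
    ext v
    change T v - 0 * v = T v
    rw [zero_mul, sub_zero]
  rw [h1]
  exact h⟩

/-- Powers of an operator of finite range repeat. -/
theorem fr_rep {T : Module.End (ZMod p) A} (h : FR T) :
    ∃ m k : ℕ, 1 ≤ k ∧ k < m ∧ T ^ m = T ^ k := by
  haveI := h.to_subtype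
  have hmap : ∀ (j : ℕ) (y : Set.range T), (T ^ j) y.1 ∈ Set.range T := by
    intro j
    induction j with
    | zero => intro y; exact y.2
    | succ j ih =>
      intro y
      rw [pow_succ']
      exact ⟨(T ^ j) y.1, rfl⟩
  obtain ⟨a, b, hab, he⟩ := Finite.exists_ne_map_eq_of_infinite
    (fun j : ℕ => fun y : Set.range T => (⟨(T ^ j) y.1, hmap j y⟩ : Set.range T))
  have h1 : T ^ (a + 1) = T ^ (b + 1) := by
    ext v
    rw [pow_succ, pow_succ]
    change (T ^ a) (T v) = (T ^ b) (T v)
    exact congrArg Subtype.val (congrFun he ⟨T v, ⟨v, rfl⟩⟩)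
  rcases Nat.lt_or_gt_of_ne hab with h2 | h2
  · exact ⟨b + 1, a + 1, by omega, by omega, h1.symm⟩
  · exact ⟨a + 1, b + 1, by omega, by omega, h1⟩

theorem fr_pow_sub {T : Module.End (ZMod p) A} {a : A} (h : FR (T - lm a)) (n : ℕ) :
    FR (T ^ n - lm a ^ n) := by
  induction n with
  | zero => rw [pow_zero, pow_zero, sub_self]; exact fr_zero
  | succ n ih =>
    have h1 : T ^ (n + 1) - lm a ^ (n + 1) = (T ^ n - lm a ^ n) * T + lm a ^ n * (T - lm a) := by
      rw [pow_succ, pow_succ, sub_mul, mul_sub]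
      abel
    rw [h1]
    exact (ih.mul_right T).add (h.mul_left _)

theorem bigR_cast : ((p : ℕ) : bigR p A) = 0 := by
  apply Subtype.ext
  push_cast
  ext v
  rw [Module.End.natCast_apply, nsmul_eq_mul, ← map_natCast (algebraMap (ZMod p) A),
    CharP.cast_eq_zero, map_zero, zero_mul]
  rfl

theorem bigR_per (hA : Per A) : Per (bigR p A) := by
  rintro ⟨T, a, ha⟩
  have hp : p.Prime := Fact.out
  refine rep_of_int hp.pos bigR_cast ?_
  obtain ⟨m, k, h1, h2, h3⟩ := hA a
  have h4 : FR (T ^ m - T ^ k) := by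
    have h5 : T ^ m - T ^ k = (T ^ m - lm a ^ m) - (T ^ k - lm a ^ k) := by
      rw [← lm_pow, ← lm_pow, h3]
      abel
    rw [h5]
    exact (fr_pow_sub ha m).sub (fr_pow_sub ha k)
  obtain ⟨m', k', -, b2, b3⟩ := fr_rep h4
  have hmon : (X ^ m - X ^ k : ℤ[X]).Monic := by
    refine monic_X_pow_sub ?_
    rw [degree_X_pow]
    exact_mod_cast h2
  have hnd : (X ^ m - X ^ k : ℤ[X]).natDegree ≠ 0 := by
    have h6 : (X ^ m - X ^ k : ℤ[X]).natDegree = m := by
      rw [natDegree_sub_eq_left_of_natDegree_lt, natDegree_X_pow]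
      rw [natDegree_X_pow, natDegree_X_pow]
      exact h2
    rw [h6]
    omega
  have hmon' : (X ^ m' - X ^ k' : ℤ[X]).Monic := by
    refine monic_X_pow_sub ?_
    rw [degree_X_pow]
    exact_mod_cast b2
  refine int_of_nil (hmon'.comp hmon hnd) ?_
  rw [aeval_comp]
  have h7 : (aeval (aeval (⟨T, a, ha⟩ : bigR p A) (X ^ m - X ^ k : ℤ[X]))) (X ^ m' - X ^ k' : ℤ[X]) = 0 := by
    apply Subtype.ext
    rw [map_sub, map_pow, map_pow, aeval_X, map_sub, map_pow, map_pow, aeval_X]
    push_cast
    rw [b3, sub_self]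
  rw [h7]
  exact IsNilpotent.zero

/-- An operator of finite range mapping `w ≠ 0` to `v`. -/
theorem exists_fr {w : A} (hw : w ≠ 0) (v : A) : ∃ f : Module.End (ZMod p) A, FR f ∧ f w = v := by
  have h1 : ¬ ∀ φ : Module.Dual (ZMod p) A, φ w = 0 := fun h =>
    hw ((Module.forall_dual_apply_eq_zero_iff (ZMod p) w).1 h)
  push Not at h1
  obtain ⟨φ, hφ⟩ := h1
  refine ⟨((φ w)⁻¹ • φ).smulRight v, ?_, ?_⟩
  · refine (Set.finite_range fun c : ZMod p => c • v).subset ?_
    rintro _ ⟨x, rfl⟩
    exact ⟨_, rfl⟩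
  · rw [LinearMap.smulRight_apply, LinearMap.smul_apply, smul_eq_mul, inv_mul_cancel₀ hφ, one_smul]

theorem bigR_primitive [Nontrivial A] : PrimitiveR (bigR p A) := by
  letI : Module (bigR p A) A := Module.compHom A (bigR p A).subtype
  refine ⟨A, inferInstance, this, ?_, ?_⟩
  · rw [isSimpleModule_iff_toSpanSingleton_surjective]
    refine ⟨inferInstance, fun w hw v => ?_⟩
    obtain ⟨f, hf, hfv⟩ := exists_fr (p := p) hw v
    exact ⟨⟨f, mem_bigR_of_fr hf⟩, hfv⟩
  · intro T hT
    exact Subtype.ext (LinearMap.ext hT)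

/-- The embedding by left multiplications. -/
def toBig (p : ℕ) [Fact p.Prime] (A : Type u) [Ring A] [Algebra (ZMod p) A] : A →+* bigR p A :=
  (Algebra.lmul (ZMod p) A).toRingHom.codRestrict (bigR p A) fun a => ⟨a, by
    have h1 : (Algebra.lmul (ZMod p) A).toRingHom a - lm a = 0 := sub_self _
    rw [h1]
    exact fr_zero⟩

theorem toBig_inj : Function.Injective (toBig p A) := by
  intro a b h
  have h1 := congrArg (fun T : bigR p A => (T : Module.End (ZMod p) A) 1) h
  have h2 : a * 1 = b * 1 := h1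
  rwa [mul_one, mul_one] at h2

end

/-- **Reduction to primitive rings.** -/
theorem per_of_primitive
    (hS : ∀ (p : ℕ) (R : Type u) [Ring R], p.Prime → (p : R) = 0 → PrimitiveR R → Per R →
      ∀ n : ℕ, Per (Matrix (Fin n) (Fin n) R))
    {R : Type u} [Ring R] (hR : Per R) (n : ℕ) : Per (Matrix (Fin n) (Fin n) R) := by
  refine (algMat_iff.1 fun p _ A _ _ hA n => ?_) R hR n
  rw [alg_iff_per] at hA ⊢
  rcases subsingleton_or_nontrivial A with h | h
  · intro B
    exact ⟨2, 1, le_rfl, by norm_num, Subsingleton.elim _ _⟩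
  · have h1 := hS p (bigR p A) Fact.out bigR_cast bigR_primitive (bigR_per hA) n
    refine h1.of_inj (toBig p A).mapMatrix ?_ fun x k _ => map_pow _ x k
    intro B C hBC
    ext i j
    exact toBig_inj (congrFun (congrFun hBC i) j)

end Pool.PUU
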